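import Mathlib

/-!
# Exponential sums: Lipschitz bound, convexity, tangent inequality (for MP_280b4e_pr)
-/

set_option autoImplicit false

open Filter Topology

namespace Pool.Agent.Y944.HS

section one

variable {ι : Type} [Fintype ι] (a b : ι → ℝ)

/-- the exponential sum -/
noncomputable def P (ζ γ : ℝ) : ℝ := ∑ i, Real.exp (ζ * a i + γ * b i)

theorem P_pos [Nonempty ι] (ζ γ : ℝ) : 0 < P a b ζ γ :=
  Finset.sum_pos (fun i _ => Real.exp_pos _) Finset.univ_nonempty

theorem log_le [Nonempty ι] {A : ℝ} (ha : ∀ i, |a i| ≤ A) (hb : ∀ i, |b i| ≤ A)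
    (ζ γ ζ' γ' : ℝ) :
    Real.log (P a b ζ' γ') ≤ Real.log (P a b ζ γ) + A * (|ζ' - ζ| + |γ' - γ|) := by
  have h1 : P a b ζ' γ' ≤ Real.exp (A * (|ζ' - ζ| + |γ' - γ|)) * P a b ζ γ := by
    unfold P
    rw [Finset.mul_sum]
    refine Finset.sum_le_sum fun i _ => ?_
    rw [← Real.exp_add]
    refine Real.exp_le_exp.2 ?_
    have h2 : (ζ' - ζ) * a i ≤ |ζ' - ζ| * A :=
      (le_abs_self _).trans (by rw [abs_mul]; exact mul_le_mul_of_nonneg_left (ha i) (abs_nonneg _))
    have h3 : (γ' - γ) * b i ≤ |γ' - γ| * A :=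
      (le_abs_self _).trans (by rw [abs_mul]; exact mul_le_mul_of_nonneg_left (hb i) (abs_nonneg _))
    nlinarith
  have h4 := Real.log_le_log (P_pos a b ζ' γ') h1
  rw [Real.log_mul (Real.exp_pos _).ne' (P_pos a b ζ γ).ne', Real.log_exp] at h4
  linarith

theorem log_lip [Nonempty ι] {A : ℝ} (ha : ∀ i, |a i| ≤ A) (hb : ∀ i, |b i| ≤ A)
    (ζ γ ζ' γ' : ℝ) :
    |Real.log (P a b ζ' γ') - Real.log (P a b ζ γ)| ≤ A * (|ζ' - ζ| + |γ' - γ|) := by
  rw [abs_le]
  have h1 := log_le a b ha hb ζ γ ζ' γ'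
  have h2 := log_le a b ha hb ζ' γ' ζ γ
  rw [abs_sub_comm ζ ζ', abs_sub_comm γ γ'] at h2
  constructor <;> linarith

theorem log_convex [Nonempty ι] (ζ γ ζ' γ' s t : ℝ) (hs : 0 ≤ s) (ht : 0 ≤ t) (hst : s + t = 1) :
    Real.log (P a b (s * ζ + t * ζ') (s * γ + t * γ')) ≤
      s * Real.log (P a b ζ γ) + t * Real.log (P a b ζ' γ') := by
  have h1 := P_pos a b ζ γ
  have h2 := P_pos a b ζ' γ'
  have h0 := P_pos a b (s * ζ + t * ζ') (s * γ + t * γ')
  set p := P a b ζ γ with hp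
  set q := P a b ζ' γ' with hq
  have h3 : P a b (s * ζ + t * ζ') (s * γ + t * γ') ≤ p ^ s * q ^ t := by
    have h4 : ∀ i, Real.exp ((s * ζ + t * ζ') * a i + (s * γ + t * γ') * b i) ≤
        p ^ s * q ^ t * (s * (Real.exp (ζ * a i + γ * b i) / p) +
          t * (Real.exp (ζ' * a i + γ' * b i) / q)) := by
      intro i
      have h5 := Real.geom_mean_le_arith_mean2_weighted hs ht
        (div_nonneg (Real.exp_pos (ζ * a i + γ * b i)).le h1.le)
        (div_nonneg (Real.exp_pos (ζ' * a i + γ' * b i)).le h2.le) hst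
      have h6 : (Real.exp (ζ * a i + γ * b i) / p) ^ s * (Real.exp (ζ' * a i + γ' * b i) / q) ^ t =
          Real.exp ((s * ζ + t * ζ') * a i + (s * γ + t * γ') * b i) / (p ^ s * q ^ t) := by
        rw [Real.div_rpow (Real.exp_pos _).le h1.le, Real.div_rpow (Real.exp_pos _).le h2.le,
          ← Real.exp_mul, ← Real.exp_mul, div_mul_div_comm, ← Real.exp_add]
        congr 2
        ring
      rw [h6, div_le_iff₀ (mul_pos (Real.rpow_pos_of_pos h1 _) (Real.rpow_pos_of_pos h2 _))] at h5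
      linarith
    calc P a b (s * ζ + t * ζ') (s * γ + t * γ')
        ≤ ∑ i, p ^ s * q ^ t * (s * (Real.exp (ζ * a i + γ * b i) / p) +
          t * (Real.exp (ζ' * a i + γ' * b i) / q)) := Finset.sum_le_sum fun i _ => h4 i
      _ = p ^ s * q ^ t * (s * (p / p) + t * (q / q)) := by
          rw [← Finset.mul_sum, Finset.sum_add_distrib, ← Finset.mul_sum, ← Finset.mul_sum,
            ← Finset.sum_div, ← Finset.sum_div]
          rfl
      _ = p ^ s * q ^ t := by
          rw [div_self h1.ne', div_self h2.ne', mul_one, mul_one, hst, mul_one]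
  have h5 := Real.log_le_log h0 h3
  rwa [Real.log_mul (Real.rpow_pos_of_pos h1 _).ne' (Real.rpow_pos_of_pos h2 _).ne',
    Real.log_rpow h1, Real.log_rpow h2] at h5

/-- the mean of `f` -/
noncomputable def M (f : ι → ℝ) (ζ γ : ℝ) : ℝ :=
  (∑ i, f i * Real.exp (ζ * a i + γ * b i)) / P a b ζ γ

theorem tangent [Nonempty ι] (f : ι → ℝ) (ζ γ h k : ℝ) (hf : ∀ i, f i = h * a i + k * b i) :
    Real.log (P a b ζ γ) + M a b f ζ γ ≤ Real.log (P a b (ζ + h) (γ + k)) := by
  have h1 := P_pos a b ζ γ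
  set m := M a b f ζ γ with hm
  have h2 : Real.exp m * P a b ζ γ ≤ P a b (ζ + h) (γ + k) := by
    have h3 : ∀ i, Real.exp m * ((1 + (f i - m)) * Real.exp (ζ * a i + γ * b i)) ≤
        Real.exp ((ζ + h) * a i + (γ + k) * b i) := by
      intro i
      have h4 : (ζ + h) * a i + (γ + k) * b i = m + ((f i - m) + (ζ * a i + γ * b i)) := by
        rw [hf i]; ring
      rw [h4, Real.exp_add m, Real.exp_add (f i - m)]
      have h5 := Real.add_one_le_exp (f i - m)
      have h6 := Real.exp_pos (ζ * a i + γ * b i)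
      have h7 := Real.exp_pos m
      have : (1 + (f i - m)) * Real.exp (ζ * a i + γ * b i) ≤
          Real.exp (f i - m) * Real.exp (ζ * a i + γ * b i) := by
        refine mul_le_mul_of_nonneg_right ?_ h6.le
        linarith
      exact mul_le_mul_of_nonneg_left this h7.le
    have h8 : ∑ i, (f i - m) * Real.exp (ζ * a i + γ * b i) = 0 := by
      have : ∑ i, (f i - m) * Real.exp (ζ * a i + γ * b i) =
          (∑ i, f i * Real.exp (ζ * a i + γ * b i)) - m * P a b ζ γ := by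
        unfold P
        rw [Finset.mul_sum, ← Finset.sum_sub_distrib]
        exact Finset.sum_congr rfl fun i _ => by ring
      rw [this, hm]
      unfold M
      rw [div_mul_cancel₀ _ h1.ne', sub_self]
    calc Real.exp m * P a b ζ γ
        = Real.exp m * (P a b ζ γ + ∑ i, (f i - m) * Real.exp (ζ * a i + γ * b i)) := by
          rw [h8, add_zero]
      _ = ∑ i, Real.exp m * ((1 + (f i - m)) * Real.exp (ζ * a i + γ * b i)) := by
          unfold P
          rw [← Finset.sum_add_distrib, Finset.mul_sum]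
          exact Finset.sum_congr rfl fun i _ => by ring
      _ ≤ _ := Finset.sum_le_sum fun i _ => h3 i
  have h9 := Real.log_le_log (mul_pos (Real.exp_pos m) h1) h2
  rw [Real.log_mul (Real.exp_pos m).ne' h1.ne', Real.log_exp] at h9
  linarith

end one

/-! ### Limits -/

/-- equi-Lipschitz functions which converge pointwise converge uniformly on squares -/
theorem unif_of_lip (u : ℕ → ℝ → ℝ → ℝ) (κ : ℝ → ℝ → ℝ) (C : ℝ) (hC : 0 ≤ C)
    (hu : ∀ᶠ n in atTop, ∀ x y x' y', |u n x' y' - u n x y| ≤ C * (|x' - x| + |y' - y|))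
    (hlim : ∀ x y, Tendsto (fun n => u n x y) atTop (𝓝 (κ x y))) (R ε : ℝ) (hε : 0 < ε) :
    ∃ N : ℕ, ∀ n, N ≤ n → ∀ x y, |x| ≤ R → |y| ≤ R → |u n x y - κ x y| ≤ ε := by
  have hκ : ∀ x y x' y', |κ x' y' - κ x y| ≤ C * (|x' - x| + |y' - y|) := by
    intro x y x' y'
    have h1 := ((hlim x' y').sub (hlim x y)).abs
    refine le_of_tendsto h1 ?_
    filter_upwards [hu] with n hn
    exact hn x y x' y'
  -- a finite net
  set δ : ℝ := ε / (6 * (C + 1)) with hδ
  have hδ0 : 0 < δ := by positivity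
  obtain ⟨K, hK⟩ := exists_nat_ge ((|R| + 1) / δ)
  have hnet : ∀ᶠ n in atTop, ∀ i ∈ Finset.Icc (-(K : ℤ)) K, ∀ j ∈ Finset.Icc (-(K : ℤ)) K,
      |u n (i * δ) (j * δ) - κ (i * δ) (j * δ)| ≤ ε / 3 := by
    rw [Filter.eventually_all_finset]
    intro i _
    rw [Filter.eventually_all_finset]
    intro j _
    have h1 := (hlim (i * δ) (j * δ))
    rw [Metric.tendsto_nhds] at h1
    filter_upwards [h1 (ε / 3) (by positivity)] with n hn
    rw [Real.dist_eq] at hn
    exact hn.le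
  obtain ⟨N, hN⟩ := (hu.and hnet).exists_forall_of_atTop
  refine ⟨N, fun n hn x y hx hy => ?_⟩
  obtain ⟨hun, hnn⟩ := hN n hn
  have hround : ∀ z : ℝ, |z| ≤ R → ∃ i ∈ Finset.Icc (-(K : ℤ)) K, |z - i * δ| ≤ δ := by
    intro z hz
    refine ⟨⌊z / δ⌋, ?_, ?_⟩
    · have h1 := Int.floor_le (z / δ)
      have h2 := Int.lt_floor_add_one (z / δ)
      have h3 := abs_le.1 hz
      rw [div_le_iff₀ hδ0] at hK
      have hR0 := le_abs_self R
      rw [Finset.mem_Icc]
      constructor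
      · have h4 : (-(K : ℝ)) - 1 < ⌊z / δ⌋ := by
          have : (-(K : ℝ)) ≤ z / δ := by
            rw [le_div_iff₀ hδ0]
            linarith
          linarith
        have h5 : (-(K : ℤ)) - 1 < ⌊z / δ⌋ := by exact_mod_cast h4
        omega
      · have h4 : (⌊z / δ⌋ : ℝ) ≤ K := by
          refine h1.trans ?_
          rw [div_le_iff₀ hδ0]
          linarith
        exact_mod_cast h4
    · have h1 := Int.floor_le (z / δ)
      have h2 := Int.lt_floor_add_one (z / δ)
      rw [le_div_iff₀ hδ0] at h1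
      rw [div_lt_iff₀ hδ0] at h2
      rw [abs_le]
      constructor <;> nlinarith
  obtain ⟨i, hi, hxi⟩ := hround x hx
  obtain ⟨j, hj, hyj⟩ := hround y hy
  have t1 := hun (i * δ) (j * δ) x y
  have t2 := hκ x y (i * δ) (j * δ)
  have t3 := hnn i hi j hj
  rw [abs_sub_comm (i * δ) x, abs_sub_comm (j * δ) y] at t2
  have t4 : C * (|x - i * δ| + |y - j * δ|) ≤ ε / 3 := by
    calc C * (|x - i * δ| + |y - j * δ|) ≤ (C + 1) * (δ + δ) := by
          refine mul_le_mul (by linarith) (add_le_add hxi hyj) (by positivity) (by linarith)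
      _ = ε / 3 := by rw [hδ]; field_simp; ring
  have t5 : |u n x y - κ x y| ≤ |u n x y - u n (i * δ) (j * δ)| +
      |u n (i * δ) (j * δ) - κ (i * δ) (j * δ)| + |κ (i * δ) (j * δ) - κ x y| := by
    have e : u n x y - κ x y = (u n x y - u n (i * δ) (j * δ)) +
      (u n (i * δ) (j * δ) - κ (i * δ) (j * δ)) + (κ (i * δ) (j * δ) - κ x y) := by ring
    rw [e]
    exact (abs_add_le _ _).trans (add_le_add (abs_add_le _ _) le_rfl)
  linarith

/-- Griffiths' lemma: slopes of functions above tangents converge at points of differentiability -/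
theorem griffiths (u : ℕ → ℝ → ℝ) (m : ℕ → ℝ) (κ : ℝ → ℝ) (x D : ℝ)
    (hlim : ∀ y, Tendsto (fun n => u n y) atTop (𝓝 (κ y))) (hD : HasDerivAt κ D x)
    (hm : ∀ᶠ n in atTop, ∀ h : ℝ, u n x + h * m n ≤ u n (x + h)) :
    Tendsto m atTop (𝓝 D) := by
  rw [Metric.tendsto_nhds]
  intro ε hε
  have hslope := hD.tendsto_slope_zero
  rw [Metric.tendsto_nhds] at hslope
  have h1 := hslope (ε / 2) (by positivity)
  rw [eventually_nhdsWithin_iff, Metric.eventually_nhds_iff] at h1
  obtain ⟨δ, hδ, h1⟩ := h1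
  have hp := h1 (y := δ / 2) (by rw [Real.dist_eq, sub_zero, abs_of_pos (by linarith)]; linarith)
    (by simp; linarith)
  have hn := h1 (y := -(δ / 2))
    (by rw [Real.dist_eq, sub_zero, abs_neg, abs_of_pos (by linarith)]; linarith)
    (by simp; linarith)
  rw [Real.dist_eq, smul_eq_mul] at hp hn
  have l1 : Tendsto (fun n => (δ / 2)⁻¹ * (u n (x + δ / 2) - u n x)) atTop
      (𝓝 ((δ / 2)⁻¹ * (κ (x + δ / 2) - κ x))) := ((hlim _).sub (hlim _)).const_mul _
  have l2 : Tendsto (fun n => (-(δ / 2))⁻¹ * (u n (x + -(δ / 2)) - u n x)) atTop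
      (𝓝 ((-(δ / 2))⁻¹ * (κ (x + -(δ / 2)) - κ x))) := ((hlim _).sub (hlim _)).const_mul _
  rw [Metric.tendsto_nhds] at l1 l2
  filter_upwards [hm, l1 (ε / 2) (by positivity), l2 (ε / 2) (by positivity)] with n g1 g2 g3
  rw [Real.dist_eq] at g2 g3 ⊢
  have g4 := g1 (δ / 2)
  have g5 := g1 (-(δ / 2))
  have d0 : 0 < δ / 2 := by linarith
  have g6 : m n ≤ (δ / 2)⁻¹ * (u n (x + δ / 2) - u n x) := by
    rw [inv_mul_eq_div, le_div_iff₀ d0]
    linarith
  have g7 : (-(δ / 2))⁻¹ * (u n (x + -(δ / 2)) - u n x) ≤ m n := by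
    rw [inv_neg, neg_mul, inv_mul_eq_div, neg_le, le_div_iff₀ d0]
    linarith
  rw [abs_lt] at g2 g3 hp hn ⊢
  constructor <;> linarith [g2.1, g2.2, g3.1, g3.2, hp.1, hp.2, hn.1, hn.2]

end Pool.Agent.Y944.HS
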