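import Pool.Agent.Y944.HS.Abs

/-!
# Exponential concentration of the densities (for MP_280b4e_pr)
-/

set_option autoImplicit false

open Filter Topology

namespace Pool.Agent.Y944.HS

theorem tail_gen {ι : Type} [Fintype ι] [Nonempty ι] (a b f : ι → ℝ)
    (x y x1 y1 x2 y2 t1 t2 : ℝ)
    (hf : ∀ i, f i ≤ Real.exp ((x1 - x) * a i + (y1 - y) * b i - t1) +
      Real.exp ((x2 - x) * a i + (y2 - y) * b i + t2)) :
    M a b f x y ≤ Real.exp (-t1 + Real.log (P a b x1 y1) - Real.log (P a b x y)) +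
      Real.exp (t2 + Real.log (P a b x2 y2) - Real.log (P a b x y)) := by
  have h0 := P_pos a b x y
  have h1 := P_pos a b x1 y1
  have h2 := P_pos a b x2 y2
  have e1 : Real.exp (-t1 + Real.log (P a b x1 y1) - Real.log (P a b x y)) =
      Real.exp (-t1) * P a b x1 y1 / P a b x y := by
    rw [Real.exp_sub, Real.exp_add, Real.exp_log h1, Real.exp_log h0]
  have e2 : Real.exp (t2 + Real.log (P a b x2 y2) - Real.log (P a b x y)) =
      Real.exp t2 * P a b x2 y2 / P a b x y := by
    rw [Real.exp_sub, Real.exp_add, Real.exp_log h2, Real.exp_log h0]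
  rw [e1, e2, ← add_div]
  unfold M
  refine div_le_div_of_nonneg_right ?_ h0.le
  have h3 : ∀ i, f i * Real.exp (x * a i + y * b i) ≤
      Real.exp (-t1) * Real.exp (x1 * a i + y1 * b i) +
        Real.exp t2 * Real.exp (x2 * a i + y2 * b i) := by
    intro i
    calc f i * Real.exp (x * a i + y * b i)
        ≤ (Real.exp ((x1 - x) * a i + (y1 - y) * b i - t1) +
            Real.exp ((x2 - x) * a i + (y2 - y) * b i + t2)) * Real.exp (x * a i + y * b i) :=
          mul_le_mul_of_nonneg_right (hf i) (Real.exp_pos _).le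
      _ = _ := by
          rw [add_mul, ← Real.exp_add, ← Real.exp_add, ← Real.exp_add, ← Real.exp_add]
          congr 2 <;> ring
  calc ∑ i, f i * Real.exp (x * a i + y * b i)
      ≤ ∑ i, (Real.exp (-t1) * Real.exp (x1 * a i + y1 * b i) +
        Real.exp t2 * Real.exp (x2 * a i + y2 * b i)) := Finset.sum_le_sum fun i _ => h3 i
    _ = _ := by
        unfold P
        rw [Finset.sum_add_distrib, Finset.mul_sum, Finset.mul_sum]

/-- exponential decay of the probability of a deviation of the density from the derivative -/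
theorem dev_decay (L : ℕ → ℝ → ℝ) (p : ℕ → ℝ) (N : ℕ → ℕ) (hN : Tendsto N atTop atTop)
    (κ : ℝ → ℝ) (x D ε : ℝ) (hε : 0 < ε)
    (hlim : ∀ z, Tendsto (fun n => 1 / (N n : ℝ) * L n z) atTop (𝓝 (κ z)))
    (hD : HasDerivAt κ D x)
    (hp : ∀ᶠ n in atTop, ∀ h, 0 ≤ h →
      p n ≤ Real.exp (-(h * (D + ε) * N n) + L n (x + h) - L n x) +
        Real.exp (h * (D - ε) * N n + L n (x - h) - L n x)) :
    ∃ c : ℝ, 0 < c ∧ ∀ᶠ n in atTop, p n ≤ Real.exp (-(c * N n)) := by
  rw [hasDerivAt_iff_isLittleO, Asymptotics.isLittleO_iff] at hD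
  obtain ⟨δ, hδ, hball⟩ := Metric.eventually_nhds_iff.1 (hD (half_pos hε))
  set h : ℝ := δ / 2 with hh
  have hh0 : 0 < h := by positivity
  have k1 : κ (x + h) - κ x ≤ h * (D + ε / 2) := by
    have h1 := hball (y := x + h) (by
      rw [Real.dist_eq, add_sub_cancel_left, abs_of_pos hh0]; linarith)
    rw [add_sub_cancel_left, Real.norm_eq_abs, Real.norm_eq_abs, abs_of_pos hh0, smul_eq_mul] at h1
    have h2 := (abs_le.1 h1).2
    linarith
  have k2 : κ (x - h) - κ x ≤ -(h * (D - ε / 2)) := by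
    have h1 := hball (y := x - h) (by
      rw [Real.dist_eq, sub_sub_cancel_left, abs_neg, abs_of_pos hh0]; linarith)
    rw [sub_sub_cancel_left, Real.norm_eq_abs, Real.norm_eq_abs, abs_neg, abs_of_pos hh0,
      smul_eq_mul] at h1
    have h2 := (abs_le.1 h1).2
    linarith
  set η : ℝ := h * ε / 16 with hη
  have hη0 : 0 < η := by positivity
  have l0 := Metric.tendsto_nhds.1 (hlim x) η hη0
  have l1 := Metric.tendsto_nhds.1 (hlim (x + h)) η hη0
  have l2 := Metric.tendsto_nhds.1 (hlim (x - h)) η hη0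
  obtain ⟨K, hK⟩ := exists_nat_ge (8 / (h * ε))
  refine ⟨h * ε / 4, by positivity, ?_⟩
  filter_upwards [l0, l1, l2, hp, hN.eventually_ge_atTop 1, hN.eventually_ge_atTop K] with
    n g0 g1 g2 gp gN gK
  have hNp : (0 : ℝ) < N n := by exact_mod_cast gN
  rw [Real.dist_eq, abs_lt] at g0 g1 g2
  have hKN : 8 / (h * ε) ≤ N n := hK.trans (by exact_mod_cast gK)
  have hKN' : 1 ≤ h * ε / 8 * N n := by
    rw [div_le_iff₀ (by positivity)] at hKN
    nlinarith
  have hcan : ∀ z, N n * (1 / (N n : ℝ) * L n z) = L n z := by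
    intro z
    field_simp
  have m0 : N n * (κ x - η) ≤ L n x := by
    rw [← hcan x]
    exact mul_le_mul_of_nonneg_left (by linarith [g0.1]) hNp.le
  have m1 : L n (x + h) ≤ N n * (κ (x + h) + η) := by
    rw [← hcan (x + h)]
    exact mul_le_mul_of_nonneg_left (by linarith [g1.2]) hNp.le
  have m2 : L n (x - h) ≤ N n * (κ (x - h) + η) := by
    rw [← hcan (x - h)]
    exact mul_le_mul_of_nonneg_left (by linarith [g2.2]) hNp.le
  have k1' := mul_le_mul_of_nonneg_left k1 hNp.le
  have k2' := mul_le_mul_of_nonneg_left k2 hNp.le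
  have e1 : -(h * (D + ε) * N n) + L n (x + h) - L n x ≤ -(3 / 8 * h * ε * N n) := by
    have : η = h * ε / 16 := hη
    nlinarith
  have e2 : h * (D - ε) * N n + L n (x - h) - L n x ≤ -(3 / 8 * h * ε * N n) := by
    have : η = h * ε / 16 := hη
    nlinarith
  have h3 := gp h hh0.le
  have h4 : p n ≤ 2 * Real.exp (-(3 / 8 * h * ε * N n)) := by
    have a1 := Real.exp_le_exp.2 e1
    have a2 := Real.exp_le_exp.2 e2
    linarith
  have h5 : (2 : ℝ) ≤ Real.exp (h * ε / 8 * N n) := by
    have := Real.add_one_le_exp (h * ε / 8 * (N n : ℝ))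
    linarith
  calc p n ≤ 2 * Real.exp (-(3 / 8 * h * ε * N n)) := h4
    _ ≤ Real.exp (h * ε / 8 * N n) * Real.exp (-(3 / 8 * h * ε * N n)) :=
        mul_le_mul_of_nonneg_right h5 (Real.exp_pos _).le
    _ = Real.exp (-(h * ε / 4 * N n)) := by
        rw [← Real.exp_add]
        congr 1
        ring

end Pool.Agent.Y944.HS
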