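import Pool.Agent.Helper772.HF3
import Pool.Agent.Y944.HS.Abs
import Pool.Agent.Y944.HS.Dev

/-!
# Walks and polygons in the half space: uniform convergence and densities (MP_280b4e_pr)
-/

set_option autoImplicit false

open Filter Topology

namespace Pool.Agent.Y944.HS

open Pool.Agent.Helper772

/-- the total number of wall visits of the walks, with their weights, divided by `Z` -/
noncomputable def wallW (n : ℕ) (ζ γ : ℝ) : ℝ :=
  (∑' w : Walks n, (visits (Set.range w.1) : ℝ) *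
    Real.exp (ζ * visits (Set.range w.1) + γ * contacts (Set.range w.1) (edges w.1))) / Z n ζ γ

/-- the mean number of contacts of the walks -/
noncomputable def contW (n : ℕ) (ζ γ : ℝ) : ℝ :=
  (∑' w : Walks n, (contacts (Set.range w.1) (edges w.1) : ℝ) *
    Real.exp (ζ * visits (Set.range w.1) + γ * contacts (Set.range w.1) (edges w.1))) / Z n ζ γ

/-- the mean number of wall visits of the polygons -/
noncomputable def wallQ (n : ℕ) (ζ γ : ℝ) : ℝ :=
  (∑' p : Quotient (parallelSetoid n), (visits (verts p.out.1) : ℝ) *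
    Real.exp (ζ * visits (verts p.out.1) + γ * contacts (verts p.out.1) p.out.1)) / Q n ζ γ

/-- the mean number of contacts of the polygons -/
noncomputable def contQ (n : ℕ) (ζ γ : ℝ) : ℝ :=
  (∑' p : Quotient (parallelSetoid n), (contacts (verts p.out.1) p.out.1 : ℝ) *
    Real.exp (ζ * visits (verts p.out.1) + γ * contacts (verts p.out.1) p.out.1)) / Q n ζ γ

/-- the probability of `A` for a walk with the weights of `Z n ζ γ` -/
noncomputable def probW (n : ℕ) (ζ γ : ℝ) (A : Set (Walks n)) : ℝ :=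
  (∑' w : Walks n, A.indicator (fun _ => (1 : ℝ)) w *
    Real.exp (ζ * visits (Set.range w.1) + γ * contacts (Set.range w.1) (edges w.1))) / Z n ζ γ

/-- the probability of `A` for a polygon with the weights of `Q n ζ γ` -/
noncomputable def probQ (n : ℕ) (ζ γ : ℝ) (A : Set (Polygons n)) : ℝ :=
  (∑' p : Quotient (parallelSetoid n), A.indicator (fun _ => (1 : ℝ)) p.out *
    Real.exp (ζ * visits (verts p.out.1) + γ * contacts (verts p.out.1) p.out.1)) / Q n ζ γ

/-! ### Bounds -/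

theorem visits_le {V : Set (Fin 3 → ℤ)} (hV : V.Finite) : visits V ≤ V.ncard :=
  Set.ncard_le_ncard Set.inter_subset_left hV

theorem contacts_le {V : Set (Fin 3 → ℤ)} (hV : V.Finite) (E : Set (Sym2 (Fin 3 → ℤ))) :
    contacts V E ≤ 6 * V.ncard := by
  classical
  have hsub : {e : Sym2 (Fin 3 → ℤ) | e ∉ E ∧ ∃ x ∈ V, ∃ y ∈ V, Nbr x y ∧ e = s(x, y)} ⊆
      (fun p : (Fin 3 → ℤ) × (Fin 3 → ℤ) => s(p.1, p.1 + p.2)) ''
        (V ×ˢ (HF2.D6 : Set (Fin 3 → ℤ))) := by
    rintro e ⟨-, x, hx, y, hy, hxy, rfl⟩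
    refine ⟨(x, y + -x), ⟨hx, ?_⟩, ?_⟩
    · have h1 := (HF2.nbr_add (x := x) (y := y) (-x)).2 hxy
      rw [add_neg_cancel] at h1
      exact HF2.nbr_zero h1
    · show s(x, x + (y + -x)) = s(x, y)
      congr 2
      abel
  have hfin : (V ×ˢ (HF2.D6 : Set (Fin 3 → ℤ))).Finite := hV.prod (Finset.finite_toSet _)
  unfold contacts
  calc _ ≤ ((fun p : (Fin 3 → ℤ) × (Fin 3 → ℤ) => s(p.1, p.1 + p.2)) ''
        (V ×ˢ (HF2.D6 : Set (Fin 3 → ℤ)))).ncard := Set.ncard_le_ncard hsub (hfin.image _)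
    _ ≤ (V ×ˢ (HF2.D6 : Set (Fin 3 → ℤ))).ncard := Set.ncard_image_le hfin
    _ = V.ncard * (HF2.D6 : Set (Fin 3 → ℤ)).ncard := Set.ncard_prod
    _ ≤ V.ncard * 6 := by
        rw [Set.ncard_coe_finset]
        exact Nat.mul_le_mul_left _ HF2.D6_card
    _ = 6 * V.ncard := Nat.mul_comm _ _

theorem range_ncard {n : ℕ} (w : Fin (n + 1) → Fin 3 → ℤ) : (Set.range w).ncard ≤ n + 1 := by
  rw [← Set.image_univ]
  refine (Set.ncard_image_le Set.finite_univ).trans ?_
  rw [Set.ncard_univ, Nat.card_eq_fintype_card, Fintype.card_fin]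

theorem verts_sub {n : ℕ} (w : Fin (n + 1) → Fin 3 → ℤ) : verts (edges w) ⊆ Set.range w := by
  rintro x ⟨e, ⟨i, rfl⟩, hx⟩
  rw [Sym2.mem_iff] at hx
  rcases hx with h | h
  · exact ⟨_, h.symm⟩
  · exact ⟨_, h.symm⟩

theorem bounds_W {n : ℕ} (w : Walks n) :
    |(visits (Set.range w.1) : ℝ)| ≤ 6 * ((n : ℝ) + 1) ∧
      |(contacts (Set.range w.1) (edges w.1) : ℝ)| ≤ 6 * ((n : ℝ) + 1) := by
  have hfin : (Set.range w.1).Finite := Set.finite_range _
  have h1 := visits_le hfin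
  have h2 := contacts_le hfin (edges w.1)
  have h3 := range_ncard w.1
  constructor
  · rw [abs_of_nonneg (Nat.cast_nonneg _)]
    have : visits (Set.range w.1) ≤ 6 * (n + 1) := by omega
    exact_mod_cast this
  · rw [abs_of_nonneg (Nat.cast_nonneg _)]
    have : contacts (Set.range w.1) (edges w.1) ≤ 6 * (n + 1) := by omega
    exact_mod_cast this

theorem bounds_Q {n : ℕ} (P : Polygons n) :
    |(visits (verts P.1) : ℝ)| ≤ 6 * ((n : ℝ) + 1) ∧
      |(contacts (verts P.1) P.1 : ℝ)| ≤ 6 * ((n : ℝ) + 1) := by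
  obtain ⟨⟨hn, w, -, -, -, -, hE⟩, -⟩ := P.2
  have hfin : (Set.range w).Finite := Set.finite_range _
  have hsub : verts P.1 ⊆ Set.range w := by
    rw [hE]; exact verts_sub w
  have hfin' : (verts P.1).Finite := hfin.subset hsub
  have h0 : (verts P.1).ncard ≤ (Set.range w).ncard := Set.ncard_le_ncard hsub hfin
  have h1 := visits_le hfin'
  have h2 := contacts_le hfin' P.1
  have h3 := range_ncard w
  constructor
  · rw [abs_of_nonneg (Nat.cast_nonneg _)]
    have : visits (verts P.1) ≤ 6 * (n + 1) := by omega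
    exact_mod_cast this
  · rw [abs_of_nonneg (Nat.cast_nonneg _)]
    have : contacts (verts P.1) P.1 ≤ 6 * (n + 1) := by omega
    exact_mod_cast this

/-! ### Finiteness -/

/-- coordinates of walks are bounded -/
theorem walk_bound {n : ℕ} (w : Walks n) (i : ℕ) (hi : i < n + 1) (k : Fin 3) :
    |w.1 ⟨i, hi⟩ k| ≤ i := by
  induction i with
  | zero =>
    have h0 : w.1 0 = 0 := w.2.1
    have : w.1 ⟨0, hi⟩ = 0 := h0
    rw [this]
    simp
  | succ i ih =>
    have hi' : i < n + 1 := by omega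
    have h1 := ih hi'
    have h2 := w.2.2.2.2 ⟨i, by omega⟩
    have h3 : |w.1 ⟨i, hi'⟩ k - w.1 ⟨i + 1, hi⟩ k| ≤ 1 := by
      have h4 : ∑ k, |w.1 ⟨i, hi'⟩ k - w.1 ⟨i + 1, hi⟩ k| = 1 := h2
      rw [← h4]
      exact Finset.single_le_sum (f := fun k => |w.1 ⟨i, hi'⟩ k - w.1 ⟨i + 1, hi⟩ k|)
        (fun _ _ => abs_nonneg _) (Finset.mem_univ k)
    rw [abs_le] at h1 h3 ⊢
    push_cast
    constructor <;> linarith [h1.1, h1.2, h3.1, h3.2]

instance finite_walks (n : ℕ) : Finite (Walks n) := by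
  have hfin : (Set.univ.pi fun _ : Fin (n + 1) => Set.univ.pi fun _ : Fin 3 =>
      Set.Icc (-(n : ℤ)) n).Finite :=
    Set.Finite.pi fun _ => Set.Finite.pi fun _ => Set.finite_Icc _ _
  refine (hfin.subset ?_).to_subtype
  intro w hw i _ k _
  have h1 := walk_bound ⟨w, hw⟩ i.1 i.2 k
  have h2 : ((i.1 : ℕ) : ℤ) ≤ n := by
    have := i.2
    omega
  rw [Set.mem_Icc, ← abs_le]
  exact h1.trans h2

theorem walks_nonempty (n : ℕ) : Nonempty (Walks n) := by
  refine ⟨⟨fun i k => if k = 0 then (i.1 : ℤ) else 0, ?_, ?_, ?_, ?_⟩⟩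
  · funext k
    by_cases h : k = 0 <;> simp [h]
  · intro i j hij
    have h := congrFun hij 0
    simp only [if_true] at h
    exact Fin.ext (by exact_mod_cast h)
  · intro i
    show (0 : ℤ) ≤ if (0 : Fin 3) = 0 then (i.1 : ℤ) else 0
    simp
  · intro i
    unfold Nbr
    rw [Fin.sum_univ_three]
    simp

theorem finite_poly {M : ℕ} (hM : 3 ≤ M) : Finite (Quotient (parallelSetoid M)) :=
  Finite.of_surjective _ (HF2.Phi_surj hM)

theorem Q_pos {m : ℕ} (hm : 2 ≤ m) (ζ γ : ℝ) : 0 < Q (2 * m) ζ γ := by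
  have hpos := HR3.PH_pos ζ γ m hm
  have hle := HF2.PH_le (2 * m) (by omega) ζ γ
  by_contra hcon
  have h1 : 6 * ((2 * m : ℕ) : ℝ) * Q (2 * m) ζ γ ≤ 0 :=
    mul_nonpos_of_nonneg_of_nonpos (by positivity) (not_lt.1 hcon)
  linarith

theorem poly_nonempty {m : ℕ} (hm : 2 ≤ m) : Nonempty (Quotient (parallelSetoid (2 * m))) := by
  by_contra hcon
  rw [not_nonempty_iff] at hcon
  have h1 := Q_pos hm 0 0
  unfold Q at h1
  rw [tsum_empty] at h1
  exact lt_irrefl _ h1

/-! ### The two families as exponential sums -/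

/-- what we need of a family of exponential sums -/
structure Fam (F fa fb : ℝ → ℝ → ℝ) (pa pb : ℝ → ℝ → ℝ → ℝ → ℝ) (N : ℕ) : Prop where
  lip : ∀ x y x' y', |Real.log (F x' y') - Real.log (F x y)| ≤
    6 * ((N : ℝ) + 1) * (|x' - x| + |y' - y|)
  conv : ∀ x y x' y' s t : ℝ, 0 ≤ s → 0 ≤ t → s + t = 1 →
    Real.log (F (s * x + t * x') (s * y + t * y')) ≤ s * Real.log (F x y) + t * Real.log (F x' y')
  ta : ∀ x y h : ℝ, Real.log (F x y) + h * fa x y ≤ Real.log (F (x + h) y)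
  tb : ∀ x y h : ℝ, Real.log (F x y) + h * fb x y ≤ Real.log (F x (y + h))
  da : ∀ D ε x y h : ℝ, 0 ≤ h → pa D ε x y ≤
    Real.exp (-(h * (D + ε) * N) + Real.log (F (x + h) y) - Real.log (F x y)) +
      Real.exp (h * (D - ε) * N + Real.log (F (x - h) y) - Real.log (F x y))
  db : ∀ D ε x y h : ℝ, 0 ≤ h → pb D ε x y ≤
    Real.exp (-(h * (D + ε) * N) + Real.log (F x (y + h)) - Real.log (F x y)) +
      Real.exp (h * (D - ε) * N + Real.log (F x (y - h)) - Real.log (F x y))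

theorem ind_le {a D ε N h g : ℝ} (hh : 0 ≤ h) (h1 : g ≤ 1)
    (h0 : ¬ ε * N ≤ |a - D * N| → g = 0) :
    g ≤ Real.exp (h * a - h * (D + ε) * N) + Real.exp (-h * a + h * (D - ε) * N) := by
  by_cases hc : ε * N ≤ |a - D * N|
  · rcases le_abs.1 hc with h2 | h2
    · have h3 : 0 ≤ h * a - h * (D + ε) * N := by
        have := mul_le_mul_of_nonneg_left h2 hh
        nlinarith
      have h4 := Real.one_le_exp h3
      have h5 := Real.exp_pos (-h * a + h * (D - ε) * N)
      linarith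
    · have h3 : 0 ≤ -h * a + h * (D - ε) * N := by
        have := mul_le_mul_of_nonneg_left h2 hh
        nlinarith
      have h4 := Real.one_le_exp h3
      have h5 := Real.exp_pos (h * a - h * (D + ε) * N)
      linarith
  · rw [h0 hc]
    positivity

theorem fam_of {ι : Type} [Fintype ι] [Nonempty ι] (a b : ι → ℝ) {N : ℕ}
    (ha : ∀ i, |a i| ≤ 6 * ((N : ℝ) + 1)) (hb : ∀ i, |b i| ≤ 6 * ((N : ℝ) + 1))
    (ga gb : ℝ → ℝ → ι → ℝ)
    (hga : ∀ D ε i, ga D ε i ≤ 1 ∧ (¬ ε * N ≤ |a i - D * N| → ga D ε i = 0))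
    (hgb : ∀ D ε i, gb D ε i ≤ 1 ∧ (¬ ε * N ≤ |b i - D * N| → gb D ε i = 0)) :
    Fam (P a b) (M a b a) (M a b b) (fun D ε => M a b (ga D ε)) (fun D ε => M a b (gb D ε)) N where
  lip := fun x y x' y' => log_lip a b ha hb x y x' y'
  conv := fun x y x' y' s t hs ht hst => log_convex a b x y x' y' s t hs ht hst
  ta := by
    intro x y h
    have h1 := tangent a b (fun i => h * a i) x y h 0 (fun i => by ring)
    rw [add_zero] at h1
    have h2 : M a b (fun i => h * a i) x y = h * M a b a x y := by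
      unfold M
      rw [← mul_div_assoc, Finset.mul_sum]
      congr 1
      exact Finset.sum_congr rfl fun i _ => by ring
    rwa [h2] at h1
  tb := by
    intro x y h
    have h1 := tangent a b (fun i => h * b i) x y 0 h (fun i => by ring)
    rw [add_zero] at h1
    have h2 : M a b (fun i => h * b i) x y = h * M a b b x y := by
      unfold M
      rw [← mul_div_assoc, Finset.mul_sum]
      congr 1
      exact Finset.sum_congr rfl fun i _ => by ring
    rwa [h2] at h1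
  da := by
    intro D ε x y h hh
    refine tail_gen a b (ga D ε) x y (x + h) y (x - h) y (h * (D + ε) * N) (h * (D - ε) * N) ?_
    intro i
    have h1 := ind_le (a := a i) (D := D) (ε := ε) (N := N) hh (hga D ε i).1 (hga D ε i).2
    have e1 : (x + h - x) * a i + (y - y) * b i - h * (D + ε) * N = h * a i - h * (D + ε) * N := by
      ring
    have e2 : (x - h - x) * a i + (y - y) * b i + h * (D - ε) * N =
        -h * a i + h * (D - ε) * N := by ring
    rw [e1, e2]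
    exact h1
  db := by
    intro D ε x y h hh
    refine tail_gen a b (gb D ε) x y x (y + h) x (y - h) (h * (D + ε) * N) (h * (D - ε) * N) ?_
    intro i
    have h1 := ind_le (a := b i) (D := D) (ε := ε) (N := N) hh (hgb D ε i).1 (hgb D ε i).2
    have e1 : (x - x) * a i + (y + h - y) * b i - h * (D + ε) * N = h * b i - h * (D + ε) * N := by
      ring
    have e2 : (x - x) * a i + (y - h - y) * b i + h * (D - ε) * N =
        -h * b i + h * (D - ε) * N := by ring
    rw [e1, e2]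
    exact h1

theorem indic {α : Type} (A : Set α) (x : α) :
    A.indicator (fun _ => (1 : ℝ)) x ≤ 1 ∧ (x ∉ A → A.indicator (fun _ => (1 : ℝ)) x = 0) := by
  classical
  refine ⟨?_, fun h => Set.indicator_of_notMem h _⟩
  by_cases h : x ∈ A
  · rw [Set.indicator_of_mem h]
  · rw [Set.indicator_of_notMem h]
    norm_num

theorem fam_W (n : ℕ) : Fam (Z n) (wallW n) (contW n)
    (fun D ε x y => probW n x y {w | ε * (n : ℝ) ≤ |(visits (Set.range w.1) : ℝ) - D * (n : ℝ)|})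
    (fun D ε x y => probW n x y
      {w | ε * (n : ℝ) ≤ |(contacts (Set.range w.1) (edges w.1) : ℝ) - D * (n : ℝ)|}) n := by
  have : Fintype (Walks n) := Fintype.ofFinite _
  have : Nonempty (Walks n) := walks_nonempty n
  have h := fam_of (fun w : Walks n => (visits (Set.range w.1) : ℝ))
    (fun w : Walks n => (contacts (Set.range w.1) (edges w.1) : ℝ))
    (fun w => (bounds_W w).1) (fun w => (bounds_W w).2)
    (fun D ε w => Set.indicator
      {w : Walks n | ε * (n : ℝ) ≤ |(visits (Set.range w.1) : ℝ) - D * (n : ℝ)|}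
      (fun _ => (1 : ℝ)) w)
    (fun D ε w => Set.indicator
      {w : Walks n | ε * (n : ℝ) ≤ |(contacts (Set.range w.1) (edges w.1) : ℝ) - D * (n : ℝ)|}
      (fun _ => (1 : ℝ)) w)
    (fun D ε w => indic _ w) (fun D ε w => indic _ w)
  have e1 : P (fun w : Walks n => (visits (Set.range w.1) : ℝ))
      (fun w : Walks n => (contacts (Set.range w.1) (edges w.1) : ℝ)) = Z n := by
    funext x y
    unfold P Z
    rw [tsum_fintype]
  have e2 : ∀ (f : Walks n → ℝ) (x y : ℝ), M (fun w : Walks n => (visits (Set.range w.1) : ℝ))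
      (fun w : Walks n => (contacts (Set.range w.1) (edges w.1) : ℝ)) f x y =
      (∑' w : Walks n, f w * Real.exp (x * visits (Set.range w.1) +
        y * contacts (Set.range w.1) (edges w.1))) / Z n x y := by
    intro f x y
    unfold M
    rw [tsum_fintype, e1]
  have e3 : M (fun w : Walks n => (visits (Set.range w.1) : ℝ))
      (fun w : Walks n => (contacts (Set.range w.1) (edges w.1) : ℝ))
      (fun w : Walks n => (visits (Set.range w.1) : ℝ)) = wallW n := by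
    funext x y
    exact e2 _ x y
  have e4 : M (fun w : Walks n => (visits (Set.range w.1) : ℝ))
      (fun w : Walks n => (contacts (Set.range w.1) (edges w.1) : ℝ))
      (fun w : Walks n => (contacts (Set.range w.1) (edges w.1) : ℝ)) = contW n := by
    funext x y
    exact e2 _ x y
  rw [e1, e3, e4] at h
  refine ⟨h.lip, h.conv, h.ta, h.tb, ?_, ?_⟩
  · intro D ε x y k hk
    have := h.da D ε x y k hk
    rw [e2] at this
    exact this
  · intro D ε x y k hk
    have := h.db D ε x y k hk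
    rw [e2] at this
    exact this

theorem fam_Q {m : ℕ} (hm : 2 ≤ m) :
    Fam (Q (2 * m)) (wallQ (2 * m)) (contQ (2 * m))
      (fun D ε x y => probQ (2 * m) x y
        {p | ε * ((2 * m : ℕ) : ℝ) ≤ |(visits (verts p.1) : ℝ) - D * ((2 * m : ℕ) : ℝ)|})
      (fun D ε x y => probQ (2 * m) x y
        {p | ε * ((2 * m : ℕ) : ℝ) ≤ |(contacts (verts p.1) p.1 : ℝ) - D * ((2 * m : ℕ) : ℝ)|})
      (2 * m) := by
  have : Finite (Quotient (parallelSetoid (2 * m))) := finite_poly (by omega)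
  have : Fintype (Quotient (parallelSetoid (2 * m))) := Fintype.ofFinite _
  have : Nonempty (Quotient (parallelSetoid (2 * m))) := poly_nonempty hm
  have h := fam_of (N := 2 * m)
    (fun p : Quotient (parallelSetoid (2 * m)) => (visits (verts p.out.1) : ℝ))
    (fun p : Quotient (parallelSetoid (2 * m)) => (contacts (verts p.out.1) p.out.1 : ℝ))
    (fun p => (bounds_Q p.out).1) (fun p => (bounds_Q p.out).2)
    (fun D ε p => Set.indicator
      {p : Polygons (2 * m) | ε * ((2 * m : ℕ) : ℝ) ≤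
        |(visits (verts p.1) : ℝ) - D * ((2 * m : ℕ) : ℝ)|} (fun _ => (1 : ℝ)) p.out)
    (fun D ε p => Set.indicator
      {p : Polygons (2 * m) | ε * ((2 * m : ℕ) : ℝ) ≤
        |(contacts (verts p.1) p.1 : ℝ) - D * ((2 * m : ℕ) : ℝ)|} (fun _ => (1 : ℝ)) p.out)
    (fun D ε p => indic _ p.out) (fun D ε p => indic _ p.out)
  have e1 : P (fun p : Quotient (parallelSetoid (2 * m)) => (visits (verts p.out.1) : ℝ))
      (fun p : Quotient (parallelSetoid (2 * m)) => (contacts (verts p.out.1) p.out.1 : ℝ)) =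
      Q (2 * m) := by
    funext x y
    unfold P Q
    rw [tsum_fintype]
  have e2 : ∀ (f : Quotient (parallelSetoid (2 * m)) → ℝ) (x y : ℝ),
      M (fun p : Quotient (parallelSetoid (2 * m)) => (visits (verts p.out.1) : ℝ))
      (fun p : Quotient (parallelSetoid (2 * m)) => (contacts (verts p.out.1) p.out.1 : ℝ))
      f x y = (∑' p : Quotient (parallelSetoid (2 * m)), f p *
        Real.exp (x * visits (verts p.out.1) + y * contacts (verts p.out.1) p.out.1)) /
          Q (2 * m) x y := by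
    intro f x y
    unfold M
    rw [tsum_fintype, e1]
  have e3 : M (fun p : Quotient (parallelSetoid (2 * m)) => (visits (verts p.out.1) : ℝ))
      (fun p : Quotient (parallelSetoid (2 * m)) => (contacts (verts p.out.1) p.out.1 : ℝ))
      (fun p : Quotient (parallelSetoid (2 * m)) => (visits (verts p.out.1) : ℝ)) =
      wallQ (2 * m) := by
    funext x y
    exact e2 _ x y
  have e4 : M (fun p : Quotient (parallelSetoid (2 * m)) => (visits (verts p.out.1) : ℝ))
      (fun p : Quotient (parallelSetoid (2 * m)) => (contacts (verts p.out.1) p.out.1 : ℝ))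
      (fun p : Quotient (parallelSetoid (2 * m)) => (contacts (verts p.out.1) p.out.1 : ℝ)) =
      contQ (2 * m) := by
    funext x y
    exact e2 _ x y
  rw [e1, e3, e4] at h
  refine ⟨h.lip, h.conv, h.ta, h.tb, ?_, ?_⟩
  · intro D ε x y k hk
    have := h.da D ε x y k hk
    rw [e2] at this
    exact this
  · intro D ε x y k hk
    have := h.db D ε x y k hk
    rw [e2] at this
    exact this

/-! ### Consequences -/

/-- all conclusions for a sequence of families with the sizes `N n` -/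
theorem concl (F fa fb : ℕ → ℝ → ℝ → ℝ) (pa pb : ℕ → ℝ → ℝ → ℝ → ℝ → ℝ) (N : ℕ → ℕ)
    (hN : Tendsto N atTop atTop) (κ : ℝ → ℝ → ℝ)
    (hF : ∀ᶠ n in atTop, Fam (F n) (fa n) (fb n) (pa n) (pb n) (N n))
    (hlim : ∀ x y, Tendsto (fun n => 1 / (N n : ℝ) * Real.log (F n x y)) atTop (𝓝 (κ x y))) :
    (∀ R ε : ℝ, 0 < ε → ∃ K : ℕ, ∀ n, K ≤ n → ∀ x y, |x| ≤ R → |y| ≤ R →
      |1 / (N n : ℝ) * Real.log (F n x y) - κ x y| ≤ ε) ∧
    (∀ x y x' y' s t : ℝ, 0 ≤ s → 0 ≤ t → s + t = 1 →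
      κ (s * x + t * x') (s * y + t * y') ≤ s * κ x y + t * κ x' y') ∧
    (∀ x y D : ℝ, HasDerivAt (fun z => κ z y) D x →
      Tendsto (fun n => 1 / (N n : ℝ) * fa n x y) atTop (𝓝 D) ∧
      ∀ ε : ℝ, 0 < ε → ∃ c : ℝ, 0 < c ∧ ∀ᶠ n in atTop, pa n D ε x y ≤ Real.exp (-(c * N n))) ∧
    (∀ x y D : ℝ, HasDerivAt (fun g => κ x g) D y →
      Tendsto (fun n => 1 / (N n : ℝ) * fb n x y) atTop (𝓝 D) ∧
      ∀ ε : ℝ, 0 < ε → ∃ c : ℝ, 0 < c ∧ ∀ᶠ n in atTop, pb n D ε x y ≤ Real.exp (-(c * N n))) := by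
  have hN1 := hN.eventually_ge_atTop 1
  refine ⟨?_, ?_, ?_, ?_⟩
  · intro R ε hε
    refine unif_of_lip (fun n x y => 1 / (N n : ℝ) * Real.log (F n x y)) κ 12 (by norm_num) ?_
      hlim R ε hε
    filter_upwards [hF, hN1] with n hn h1 x y x' y'
    have h0 : (1 : ℝ) ≤ (N n : ℝ) := by exact_mod_cast h1
    have h0' : (0 : ℝ) < (N n : ℝ) := by linarith
    rw [← mul_sub, abs_mul, abs_of_pos (by positivity), one_div, inv_mul_eq_div,
      div_le_iff₀ h0']
    refine (hn.lip x y x' y').trans ?_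
    have h2 : 0 ≤ |x' - x| + |y' - y| := by positivity
    nlinarith
  · intro x y x' y' s t hs ht hst
    refine le_of_tendsto_of_tendsto (hlim _ _) (((hlim x y).const_mul s).add
      ((hlim x' y').const_mul t)) ?_
    filter_upwards [hF, hN1] with n hn h1
    have h0' : (0 : ℝ) < (N n : ℝ) := by exact_mod_cast h1
    have h2 := hn.conv x y x' y' s t hs ht hst
    have h3 : 0 ≤ 1 / (N n : ℝ) := by positivity
    calc 1 / (N n : ℝ) * Real.log (F n (s * x + t * x') (s * y + t * y'))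
        ≤ 1 / (N n : ℝ) * (s * Real.log (F n x y) + t * Real.log (F n x' y')) :=
          mul_le_mul_of_nonneg_left h2 h3
      _ = _ := by ring
  · intro x y D hD
    refine ⟨?_, fun ε hε => dev_decay (fun n z => Real.log (F n z y)) (fun n => pa n D ε x y) N hN
      (fun z => κ z y) x D ε hε (fun z => hlim z y) hD
      (hF.mono fun n hn h hh => hn.da D ε x y h hh)⟩
    refine griffiths (fun n z => 1 / (N n : ℝ) * Real.log (F n z y)) _ (fun z => κ z y) x D
      (fun z => hlim z y) hD ?_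
    filter_upwards [hF, hN1] with n hn h1 h
    have h0' : (0 : ℝ) < (N n : ℝ) := by exact_mod_cast h1
    have h3 : 0 ≤ 1 / (N n : ℝ) := by positivity
    have h2 := mul_le_mul_of_nonneg_left (hn.ta x y h) h3
    calc 1 / (N n : ℝ) * Real.log (F n x y) + h * (1 / (N n : ℝ) * fa n x y)
        = 1 / (N n : ℝ) * (Real.log (F n x y) + h * fa n x y) := by ring
      _ ≤ _ := h2
  · intro x y D hD
    refine ⟨?_, fun ε hε => dev_decay (fun n z => Real.log (F n x z)) (fun n => pb n D ε x y) N hN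
      (fun z => κ x z) y D ε hε (fun z => hlim x z) hD
      (hF.mono fun n hn h hh => hn.db D ε x y h hh)⟩
    refine griffiths (fun n z => 1 / (N n : ℝ) * Real.log (F n x z)) _ (fun z => κ x z) y D
      (fun z => hlim x z) hD ?_
    filter_upwards [hF, hN1] with n hn h1 h
    have h0' : (0 : ℝ) < (N n : ℝ) := by exact_mod_cast h1
    have h3 : 0 ≤ 1 / (N n : ℝ) := by positivity
    have h2 := mul_le_mul_of_nonneg_left (hn.tb x y h) h3
    calc 1 / (N n : ℝ) * Real.log (F n x y) + h * (1 / (N n : ℝ) * fb n x y)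
        = 1 / (N n : ℝ) * (Real.log (F n x y) + h * fb n x y) := by ring
      _ ≤ _ := h2

theorem main : ∃ κ : ℝ → ℝ → ℝ,
    (∀ ζ γ : ℝ,
      Tendsto (fun m : ℕ => 1 / ((2 * m : ℕ) : ℝ) * Real.log (Q (2 * m) ζ γ)) atTop (𝓝 (κ ζ γ)) ∧
      Tendsto (fun n : ℕ => 1 / (n : ℝ) * Real.log (Z n ζ γ)) atTop (𝓝 (κ ζ γ))) ∧
    (∀ R ε : ℝ, 0 < ε → ∃ K : ℕ, ∀ n : ℕ, K ≤ n → ∀ ζ γ : ℝ, |ζ| ≤ R → |γ| ≤ R →
      |1 / ((2 * n : ℕ) : ℝ) * Real.log (Q (2 * n) ζ γ) - κ ζ γ| ≤ ε ∧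
      |1 / (n : ℝ) * Real.log (Z n ζ γ) - κ ζ γ| ≤ ε) ∧
    ConvexOn ℝ Set.univ (fun p : ℝ × ℝ => κ p.1 p.2) ∧
    (∀ ζ γ D : ℝ, HasDerivAt (fun z => κ z γ) D ζ →
      Tendsto (fun m : ℕ => 1 / ((2 * m : ℕ) : ℝ) * wallQ (2 * m) ζ γ) atTop (𝓝 D) ∧
      Tendsto (fun n : ℕ => 1 / (n : ℝ) * wallW n ζ γ) atTop (𝓝 D) ∧
      ∀ ε : ℝ, 0 < ε → ∃ c : ℝ, 0 < c ∧ ∃ K : ℕ, ∀ n : ℕ, K ≤ n →
        probQ (2 * n) ζ γ {p | ε * ((2 * n : ℕ) : ℝ) ≤
          |(visits (verts p.1) : ℝ) - D * ((2 * n : ℕ) : ℝ)|} ≤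
            Real.exp (-(c * ((2 * n : ℕ) : ℝ))) ∧
        probW n ζ γ {w | ε * (n : ℝ) ≤ |(visits (Set.range w.1) : ℝ) - D * (n : ℝ)|} ≤
          Real.exp (-(c * (n : ℝ)))) ∧
    (∀ ζ γ D : ℝ, HasDerivAt (fun g => κ ζ g) D γ →
      Tendsto (fun m : ℕ => 1 / ((2 * m : ℕ) : ℝ) * contQ (2 * m) ζ γ) atTop (𝓝 D) ∧
      Tendsto (fun n : ℕ => 1 / (n : ℝ) * contW n ζ γ) atTop (𝓝 D) ∧
      ∀ ε : ℝ, 0 < ε → ∃ c : ℝ, 0 < c ∧ ∃ K : ℕ, ∀ n : ℕ, K ≤ n →
        probQ (2 * n) ζ γ {p | ε * ((2 * n : ℕ) : ℝ) ≤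
          |(contacts (verts p.1) p.1 : ℝ) - D * ((2 * n : ℕ) : ℝ)|} ≤
            Real.exp (-(c * ((2 * n : ℕ) : ℝ))) ∧
        probW n ζ γ {w | ε * (n : ℝ) ≤
          |(contacts (Set.range w.1) (edges w.1) : ℝ) - D * (n : ℝ)|} ≤
            Real.exp (-(c * (n : ℝ)))) := by
  choose κ hκ using HF3.result
  have hW := concl Z wallW contW _ _ (fun n => n) tendsto_id κ
    (Filter.Eventually.of_forall fun n => fam_W n) (fun x y => (hκ x y).2)
  have h2m : Tendsto (fun m : ℕ => 2 * m) atTop atTop :=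
    tendsto_atTop_mono (fun k => (by simp only [id]; omega : id k ≤ 2 * k)) tendsto_id
  have hQ := concl (fun m => Q (2 * m)) (fun m => wallQ (2 * m)) (fun m => contQ (2 * m)) _ _
    (fun m => 2 * m) h2m κ
    (by filter_upwards [eventually_ge_atTop 2] with m hm; exact fam_Q hm)
    (fun x y => (hκ x y).1)
  have comb : ∀ (p q : ℕ → ℝ),
      (∃ c : ℝ, 0 < c ∧ ∀ᶠ n in atTop, p n ≤ Real.exp (-(c * ((2 * n : ℕ) : ℝ)))) →
      (∃ c : ℝ, 0 < c ∧ ∀ᶠ n : ℕ in atTop, q n ≤ Real.exp (-(c * (n : ℝ)))) →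
      ∃ c : ℝ, 0 < c ∧ ∃ K : ℕ, ∀ n : ℕ, K ≤ n →
        p n ≤ Real.exp (-(c * ((2 * n : ℕ) : ℝ))) ∧ q n ≤ Real.exp (-(c * (n : ℝ))) := by
    rintro p q ⟨c1, h1, h1'⟩ ⟨c2, h2, h2'⟩
    obtain ⟨K, hK⟩ := eventually_atTop.1 (h1'.and h2')
    refine ⟨min c1 c2, lt_min h1 h2, K, fun n hn => ?_⟩
    obtain ⟨h3, h4⟩ := hK n hn
    refine ⟨h3.trans (Real.exp_le_exp.2 (neg_le_neg ?_)),
      h4.trans (Real.exp_le_exp.2 (neg_le_neg ?_))⟩
    · exact mul_le_mul_of_nonneg_right (min_le_left _ _) (Nat.cast_nonneg _)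
    · exact mul_le_mul_of_nonneg_right (min_le_right _ _) (Nat.cast_nonneg _)
  refine ⟨κ, hκ, ?_, ?_, ?_, ?_⟩
  · intro R ε hε
    obtain ⟨K1, h1⟩ := hW.1 R ε hε
    obtain ⟨K2, h2⟩ := hQ.1 R ε hε
    refine ⟨max K1 K2, fun n hn ζ γ hζ hγ => ⟨?_, ?_⟩⟩
    · exact h2 n ((le_max_right _ _).trans hn) ζ γ hζ hγ
    · exact h1 n ((le_max_left _ _).trans hn) ζ γ hζ hγ
  · refine ⟨convex_univ, ?_⟩
    intro p _ q _ s t hs ht hst
    exact hW.2.1 p.1 p.2 q.1 q.2 s t hs ht hst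
  · intro ζ γ D hD
    refine ⟨(hQ.2.2.1 ζ γ D hD).1, (hW.2.2.1 ζ γ D hD).1, fun ε hε => ?_⟩
    exact comb _ _ ((hQ.2.2.1 ζ γ D hD).2 ε hε) ((hW.2.2.1 ζ γ D hD).2 ε hε)
  · intro ζ γ D hD
    refine ⟨(hQ.2.2.2 ζ γ D hD).1, (hW.2.2.2 ζ γ D hD).1, fun ε hε => ?_⟩
    exact comb _ _ ((hQ.2.2.2 ζ γ D hD).2 ε hε) ((hW.2.2.2 ζ γ D hD).2 ε hε)

end Pool.Agent.Y944.HS
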